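import Mathlib
import Pool.Agent.H228_Iso.Main

/-!
# Isolated left orders and free subsemigroups

Let `G` be a group all of whose finitely generated subgroups are hyper-(without free
subsemigroups of rank two). If `G` has infinitely many left orders, then no left order on `G` is
isolated. Left orders are given by their positive cones.
-/

set_option autoImplicit false

namespace Pool.Agent.Results.MP_7d9748_al.HyperNFS

/-- `P` is the positive cone of a left order on `G`. -/
def IsPosCone {G : Type*} [Group G] (P : Set G) : Prop :=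
  (∀ a ∈ P, ∀ b ∈ P, a * b ∈ P) ∧ (1 : G) ∉ P ∧
    (∀ a : G, a ≠ 1 → (a ∈ P ∨ a⁻¹ ∈ P)) ∧ (∀ a ∈ P, a⁻¹ ∉ P)

/-- No two elements of `Q` freely generate a free monoid. -/
def NoFreeMonoid (Q : Type*) [Group Q] : Prop :=
  ∀ a b : Q, ¬ Function.Injective (FreeMonoid.lift (fun i : Bool => if i then a else b))

/-- Every nontrivial quotient of `H` has a nontrivial normal subgroup in which no two elements
freely generate a free monoid. -/
def HyperNFM (H : Type*) [Group H] : Prop :=
  ∀ (K : Subgroup H) [K.Normal], K ≠ ⊤ →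
    ∃ N : Subgroup (H ⧸ K), N.Normal ∧ N ≠ ⊥ ∧ NoFreeMonoid N

theorem hyp_of_hyperNFM {H : Type*} [Group H] (hH : HyperNFM H) : H228_Iso.Hyp H := by
  intro K hK hKt
  obtain ⟨N, hN, hNb, hfree⟩ := hH K hKt
  refine ⟨N.comap (QuotientGroup.mk' K), hN.comap _, ?_, ?_⟩
  · refine lt_of_le_of_ne ?_ ?_
    · intro k hk
      rw [Subgroup.mem_comap, (by
        rw [← MonoidHom.mem_ker, QuotientGroup.ker_mk']
        exact hk : QuotientGroup.mk' K k = 1)]
      exact N.one_mem
    · intro he
      apply hNb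
      rw [eq_bot_iff]
      intro x hx
      obtain ⟨y, rfl⟩ := QuotientGroup.mk'_surjective K x
      have h1 : y ∈ N.comap (QuotientGroup.mk' K) := hx
      rw [← he] at h1
      rw [Subgroup.mem_bot, ← MonoidHom.mem_ker, QuotientGroup.ker_mk']
      exact h1
  · intro f hf g hg
    let a : N := ⟨QuotientGroup.mk' K f, hf⟩
    let b : N := ⟨QuotientGroup.mk' K g, hg⟩
    obtain ⟨s, hs, t, ht, hst⟩ := H228_Iso.nfs_rel (hfree a b)
    have hmap : ∀ x : N, x ∈ Submonoid.closure ({a, b} : Set N) →
        ∃ y ∈ Submonoid.closure ({f, g} : Set H), QuotientGroup.mk' K y = x := by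
      intro x hx
      apply H228_Iso.closure_pre
      have h1 : N.subtype x ∈ (Submonoid.closure ({a, b} : Set N)).map N.subtype :=
        ⟨x, hx, rfl⟩
      rw [MonoidHom.map_mclosure, Set.image_pair] at h1
      exact h1
    obtain ⟨s', hs', hs2⟩ := hmap s hs
    obtain ⟨t', ht', ht2⟩ := hmap t ht
    refine ⟨s', hs', t', ht', ?_⟩
    have h3 : QuotientGroup.mk' K f * (s : H ⧸ K) = QuotientGroup.mk' K g * (t : H ⧸ K) :=
      congrArg Subtype.val hst
    rw [← QuotientGroup.ker_mk' K, MonoidHom.mem_ker, map_mul, map_inv, map_mul, map_mul,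
      hs2, ht2, h3, inv_mul_cancel]

/-- If every finitely generated subgroup of `G` is hyper-(no free submonoid of rank two) and `G`
has infinitely many left orders, then no left order on `G` is isolated. -/
theorem result (G : Type*) [Group G] (hG : ∀ H : Subgroup G, H.FG → HyperNFM H)
    (hinf : {P : Set G | IsPosCone P}.Infinite) :
    ∀ P : Set G, IsPosCone P → ∀ F : Finset G,
      ∃ Q : Set G, IsPosCone Q ∧ (∀ g ∈ F, (g ∈ Q ↔ g ∈ P)) ∧ Q ≠ P := by
  intro P hP F
  by_contra hcon
  push Not at hcon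
  apply hinf
  have hiff : ∀ Q : Set G, IsPosCone Q ↔ H228_Iso.Cone Q := by
    intro Q
    constructor
    · rintro ⟨h1, h2, h3, h4⟩
      exact ⟨h1, h2, h3, h4⟩
    · intro h
      exact ⟨h.mul, h.one, h.tot, h.asym⟩
  have h1 := H228_Iso.finite_of_isolated G (fun H hH => hyp_of_hyperNFM (hG H hH)) P
    ((hiff P).1 hP) F (fun Q hQ hQF => hcon Q ((hiff Q).2 hQ) hQF)
  exact h1.subset (fun Q hQ => (hiff Q).1 hQ)

end Pool.Agent.Results.MP_7d9748_al.HyperNFS
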